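import Pool.Agent.Lib.MP_551055_al.T4.Perf
import Pool.Agent.Lib.MP_551055_al.T4.Alg
import Pool.Agent.Lib.MP_551055_al.LO.Base

/-!
# Stably locally perfect kernels

`LPS R`: every finite set of elements of the kernel of a linear map between finitely generated free
modules is contained in a perfect submodule of the sum of the kernel with a finitely generated free
module.
-/

set_option autoImplicit false

namespace Pool.Agent.Lib.MP_551055_al.T6

open Pool.Agent.Lib.MP_551055_al
open Pool.Agent.Lib.MP_551055_al.LS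
open Pool.Agent.Lib.MP_551055_al.LO
open Pool.Agent.Lib.MP_551055_al.T4

universe u

/-- The kernels of maps between finitely generated free modules are stably locally perfect. -/
def LPS (R : Type u) [Ring R] : Prop :=
  ∀ (n a : ℕ) (f : (Fin n → R) →ₗ[R] (Fin a → R)) (s : Finset (Fin n → R)),
    (∀ x ∈ s, f x = 0) → ∃ (m : ℕ) (V : Submodule R ((Fin n → R) × (Fin m → R))),
      (∀ y ∈ V, f y.1 = 0) ∧ (∀ x ∈ s, ((x, 0) : (Fin n → R) × (Fin m → R)) ∈ V) ∧
        ∃ d, FFR R d V

section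

variable {R : Type u} [Ring R]

/-- The unstable form. -/
theorem LPS.of_lpk (h : LPK R) : LPS R := by
  intro a b φ s hs
  obtain ⟨V, h1, h2, d, h3⟩ := h a b φ (s : Set (Fin a → R)) s.finite_toSet
    fun x hx => LinearMap.mem_ker.2 (hs x hx)
  let i : V →ₗ[R] ((Fin a → R) × (Fin 0 → R)) := LinearMap.inl _ _ _ ∘ₗ V.subtype
  have hi : Function.Injective i := LinearMap.inl_injective.comp V.injective_subtype
  refine ⟨0, LinearMap.range i, ?_, fun x hx => ⟨⟨x, h1 hx⟩, rfl⟩, d,
    h3.congr (LinearEquiv.ofInjective i hi)⟩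
  rintro _ ⟨y, rfl⟩
  exact LinearMap.mem_ker.1 (h2 y.2)

/-- Regular coherent rings. -/
theorem LPS.of_regCoh (h : RegCoh R) : LPS R := LPS.of_lpk (LPK.of_regCoh h)

/-- Rings such that the kernels are projective. -/
theorem LPS.of_projective (h : ∀ (n a : ℕ) (f : (Fin n → R) →ₗ[R] (Fin a → R)),
    Module.Projective R (LinearMap.ker f)) : LPS R := by
  classical
  intro a b φ s hs
  have hp : Module.Projective R (LinearMap.ker φ) := h a b φ
  let e : {x // x ∈ s} → LinearMap.ker φ := fun x => ⟨x.1, LinearMap.mem_ker.2 (hs x.1 x.2)⟩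
  obtain ⟨n, m, j, hj, hv⟩ := exists_free_of_proj (S := R) (K := LinearMap.ker φ)
    (s.attach.image e)
  let j' : (Fin n → R) →ₗ[R] (Fin a → R) × (Fin m → R) :=
    ((LinearMap.ker φ).subtype.prodMap LinearMap.id) ∘ₗ j
  have hj' : ∀ v, j' v = (((j v).1 : Fin a → R), (j v).2) := fun _ => rfl
  have hinj : Function.Injective j' := by
    intro v w hvw
    rw [hj', hj', Prod.mk.injEq] at hvw
    exact hj (Prod.ext (Subtype.ext hvw.1) hvw.2)
  refine ⟨m, LinearMap.range j', ?_, fun x hx => ?_, 0, ?_⟩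
  · rintro _ ⟨v, rfl⟩
    exact LinearMap.mem_ker.1 (j v).1.2
  · obtain ⟨v, hv⟩ := hv (e ⟨x, hx⟩) (Finset.mem_image_of_mem e (Finset.mem_attach _ _))
    exact ⟨v, by rw [hj', hv]⟩
  · refine FFR.congr (LinearEquiv.ofInjective j' hinj) ?_
    exact ⟨inferInstance, inferInstance⟩

/-- The kernel of a map from a perfect module to a free module of any rank. -/
theorem LPS.ker (h : LPS R) {M E : Type u} [AddCommGroup M] [Module R M] [AddCommGroup E]
    [Module R E] [Module.Free R E] (hM : Perf R M) (g : M →ₗ[R] E) (s : Finset M)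
    (hs : ∀ x ∈ s, g x = 0) : ∃ (m : ℕ) (V : Submodule R (M × (Fin m → R))),
      (∀ y ∈ V, g y.1 = 0) ∧ (∀ x ∈ s, ((x, 0) : M × (Fin m → R)) ∈ V) ∧ Perf R V := by
  classical
  obtain ⟨d, hd⟩ := hM
  obtain ⟨n, π, hπ, hk⟩ := hd.succ
  obtain ⟨b, f, hf⟩ := exists_ker_eq (g ∘ₗ π)
  have hfgk : (LinearMap.ker π).FG := Module.Finite.iff_fg.1 hk.finite
  obtain ⟨t, ht⟩ := hfgk
  let σ : M → (Fin n → R) := fun y => (hπ y).choose
  have hσ : ∀ y, π (σ y) = y := fun y => (hπ y).choose_spec
  obtain ⟨m, V, h1, h2, h3⟩ := h n b f (s.image σ ∪ t) (by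
    intro y hy
    have h4 : y ∈ LinearMap.ker f := by
      rw [hf]
      rcases Finset.mem_union.1 hy with hy | hy
      · obtain ⟨x, hx, rfl⟩ := Finset.mem_image.1 hy
        change g (π (σ x)) = 0
        rw [hσ]
        exact hs x hx
      · have h4 : y ∈ LinearMap.ker π := by
          rw [← ht]
          exact Submodule.subset_span hy
        change g (π y) = 0
        rw [LinearMap.mem_ker.1 h4, map_zero]
    exact h4)
  let P : ((Fin n → R) × (Fin m → R)) →ₗ[R] (M × (Fin m → R)) := π.prodMap LinearMap.id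
  have hP : ∀ y, P y = (π y.1, y.2) := fun _ => rfl
  have hKV : ∀ y ∈ LinearMap.ker π, ((y, 0) : (Fin n → R) × (Fin m → R)) ∈ V := by
    intro y hy
    have h4 : Submodule.span R (t : Set (Fin n → R)) ≤
        V.comap (LinearMap.inl R (Fin n → R) (Fin m → R)) := by
      rw [Submodule.span_le]
      exact fun y hy => h2 y (Finset.mem_union_right _ hy)
    rw [ht] at h4
    exact h4 hy
  refine ⟨m, V.map P, ?_, fun x hx => ?_, ?_⟩
  · rintro _ ⟨y, hy, rfl⟩
    have h4 : y.1 ∈ LinearMap.ker f := h1 y hy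
    rw [hf] at h4
    exact h4
  · refine ⟨(σ x, 0), h2 _ (Finset.mem_union_left _ (Finset.mem_image_of_mem σ hx)), ?_⟩
    rw [hP, hσ]
  · let i : LinearMap.ker π →ₗ[R] V :=
      (LinearMap.inl R (Fin n → R) (Fin m → R) ∘ₗ (LinearMap.ker π).subtype).codRestrict V
        fun y => hKV _ y.2
    let q : V →ₗ[R] V.map P := P.restrict fun y hy => ⟨y, hy, rfl⟩
    refine Perf.right (i := i) (q := q) ?_ ?_ ?_ ⟨d, hk⟩ h3
    · intro x y hxy
      exact Subtype.ext (congrArg (fun z : V => (z : (Fin n → R) × (Fin m → R)).1) hxy)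
    · rintro ⟨_, y, hy, rfl⟩
      exact ⟨⟨y, hy⟩, rfl⟩
    · intro y
      constructor
      · intro hy
        have h4 : P y = 0 := congrArg Subtype.val hy
        rw [hP, Prod.mk_eq_zero] at h4
        exact ⟨⟨(y : (Fin n → R) × (Fin m → R)).1, LinearMap.mem_ker.2 h4.1⟩,
          Subtype.ext (Prod.ext rfl h4.2.symm)⟩
      · rintro ⟨x, rfl⟩
        refine Subtype.ext (Prod.ext ?_ rfl)
        exact LinearMap.mem_ker.1 x.2

/-- Isomorphic rings. -/
theorem LPS.congr {R' : Type u} [Ring R'] (e : R ≃+* R') (h : LPS R) : LPS R' := by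
  classical
  intro n a f s hs
  have : RingHomInvPair (e : R →+* R') (e.symm : R' →+* R) := RingHomInvPair.of_ringEquiv e
  have : RingHomInvPair (e.symm : R' →+* R) (e : R →+* R') := RingHomInvPair.symm _ _
  let En : (Fin n → R) ≃ₛₗ[(e : R →+* R')] (Fin n → R') := piSemi n
  let Ea : (Fin a → R) ≃ₛₗ[(e : R →+* R')] (Fin a → R') := piSemi a
  let f₀ : (Fin n → R) →ₗ[R] (Fin a → R) := trSemi En.symm Ea.symm f
  have hf₀ : ∀ y, f₀ y = Ea.symm (f (En y)) := fun _ => rfl
  obtain ⟨m, V, h1, h2, d, h3⟩ := h n a f₀ (s.image En.symm) (by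
    intro x hx
    obtain ⟨y, hy, rfl⟩ := Finset.mem_image.1 hx
    rw [hf₀, LinearEquiv.apply_symm_apply, hs y hy, map_zero])
  let Em : (Fin m → R) ≃ₛₗ[(e : R →+* R')] (Fin m → R') := piSemi m
  let E : ((Fin n → R) × (Fin m → R)) ≃ₛₗ[(e : R →+* R')] ((Fin n → R') × (Fin m → R')) :=
    { toFun := fun y => (En y.1, Em y.2)
      map_add' := fun y z => by
        refine Prod.ext ?_ ?_
        · exact map_add En _ _
        · exact map_add Em _ _
      map_smul' := fun r y => by
        refine Prod.ext ?_ ?_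
        · exact En.map_smulₛₗ r y.1
        · exact Em.map_smulₛₗ r y.2
      invFun := fun y => (En.symm y.1, Em.symm y.2)
      left_inv := fun y => Prod.ext (En.symm_apply_apply _) (Em.symm_apply_apply _)
      right_inv := fun y => Prod.ext (En.apply_symm_apply _) (Em.apply_symm_apply _) }
  have hE : ∀ y, E y = (En y.1, Em y.2) := fun _ => rfl
  refine ⟨m, V.map E.toLinearMap, ?_, fun x hx => ?_, d, FFR.semi d (E.submoduleMap V) h3⟩
  · rintro _ ⟨y, hy, rfl⟩
    have h4 := h1 y hy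
    rw [hf₀] at h4
    exact (map_eq_zero_iff Ea.symm Ea.symm.injective).1 h4
  · refine ⟨(En.symm x, 0), h2 _ (Finset.mem_image_of_mem _ hx), ?_⟩
    change (En (En.symm x), Em 0) = _
    rw [LinearEquiv.apply_symm_apply, map_zero]

end

end Pool.Agent.Lib.MP_551055_al.T6
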