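import Pool.Agent.Lib.MP_551055_al.T6.Lps
import Pool.Agent.Lib.MP_551055_al.T4.Bridge
import Pool.Agent.Lib.MP_551055_al.T4.Fil
import Pool.Agent.Lib.MP_551055_al.T4.VStep
import Pool.Agent.Lib.MP_551055_al.T4.TwoClo
import Pool.Agent.Lib.MP_551055_al.T4.MainT

/-!
# Nil modules over rings with stably locally perfect kernels
-/

set_option autoImplicit false

namespace Pool.Agent.Lib.MP_551055_al.T6

open Pool.Agent.Lib.MP_551055_al
open Pool.Agent.Lib.MP_551055_al.LS
open Pool.Agent.Lib.MP_551055_al.LO
open Pool.Agent.Lib.MP_551055_al.LD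
open Pool.Agent.Lib.MP_551055_al.T4

open scoped Matrix

universe u

section

variable {A : Type u} [CommRing A] {G : Type u} [Group G] {D : Subgroup G}

theorem chi1_eq_zero {k : Type u} [CommRing k] {Γ H : Type u} [Group Γ] [Group H] (ψ : H →* Γ)
    (hψ : Function.Injective ψ) {t : MonoidAlgebra k Γ} (h : chi1 ψ hψ t = 0) : t = 0 := by
  apply MonoidAlgebra.ext
  ext g
  obtain ⟨x, hx⟩ : ∃ x, x = Quotient.mk (QuotientGroup.rightRel ψ.range) g := ⟨_, rfl⟩
  have h1 : g * x.out⁻¹ ∈ ψ.range := by
    have h2 : (QuotientGroup.rightRel ψ.range) x.out g := by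
      rw [hx]
      exact Quotient.mk_out g
    rwa [QuotientGroup.rightRel_apply] at h2
  obtain ⟨d, hd⟩ := h1
  have h2 : ψ d * x.out = g := by rw [hd, inv_mul_cancel_right]
  have h3 : (chi1F ψ hψ t x).coeff d = 0 := by
    rw [← chi1_apply, h]
    rfl
  rw [chi1F_coeff, h2] at h3
  exact h3

/-- The coordinates of `v B ^ i`. -/
noncomputable def kerMap {ι : Type} [Fintype ι] [DecidableEq ι] (D : Subgroup G)
    (B : Matrix ι ι (MonoidAlgebra A G)) (i : ℕ) :
    (ι → MonoidAlgebra A D) →ₗ[MonoidAlgebra A D]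
      (ι → (Quotient (QuotientGroup.rightRel D.subtype.range) →₀ MonoidAlgebra A D)) where
  toFun v j := chi1 D.subtype Subtype.val_injective ((incV D v ᵥ* B ^ i) j)
  map_add' v w := by
    funext j
    have h1 : incV D (v + w) = incV D v + incV D w := by
      funext l
      exact map_add _ _ _
    rw [h1, Matrix.add_vecMul, Pi.add_apply, map_add, Pi.add_apply]
  map_smul' r v := by
    funext j
    have h1 : incV D (r • v) = inc A D.subtype r • incV D v := by
      funext l
      exact map_mul _ _ _
    rw [h1, Matrix.smul_vecMul, Pi.smul_apply, smul_eq_mul, chi1_smul]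
    rfl

theorem kerMap_eq_zero {ι : Type} [Fintype ι] [DecidableEq ι]
    {B : Matrix ι ι (MonoidAlgebra A G)} {i : ℕ} {v : ι → MonoidAlgebra A D} :
    kerMap D B i v = 0 ↔ v ∈ matK D B i := by
  rw [mem_matK]
  constructor
  · intro h
    funext j
    exact chi1_eq_zero D.subtype Subtype.val_injective (congrFun h j)
  · intro h
    funext j
    change chi1 D.subtype Subtype.val_injective ((incV D v ᵥ* B ^ i) j) = 0
    rw [h, Pi.zero_apply, map_zero]

/-- The class of a nil module which is a part of the nil module of a nilpotent matrix. -/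
theorem ngm_of_lps (K : K1C (MonoidAlgebra A G)) (hR : LPS (MonoidAlgebra A D)) {ι : Type}
    [Fintype ι] [DecidableEq ι] (g : G) (hur : UR (Γ := G) (crel D g))
    (B : Matrix ι ι (MonoidAlgebra A G))
    (hsupp : ∀ i l γ, (B i l).coeff γ ≠ 0 → ∃ a ∈ D, ∃ b ∈ D, γ = a * g * b) (i : ℕ) :
    ∀ {M : Type u} [AddCommGroup M] [Module (MonoidAlgebra A D) M]
      (f : M →ₛₗ[incD D A] Ind A D M)
      (π : M →ₗ[MonoidAlgebra A D] (ι → MonoidAlgebra A D)), Perf (MonoidAlgebra A D) M →
      IsHom f (matM B) π → (∀ m, π m = 0 → f m = 0) → (∀ m, π m ∈ matK D B i) → NGM K f := by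
  classical
  induction i with
  | zero =>
    intro M _ _ f π hM _ h0 hi
    have h1 : f = 0 := by
      refine LinearMap.ext fun m => ?_
      refine (h0 m ?_).trans rfl
      have h2 := hi m
      rw [mem_matK, pow_zero, Matrix.vecMul_one] at h2
      funext j
      exact inc_injective D.subtype Subtype.val_injective ((congrFun h2 j).trans (map_zero _).symm)
    rw [h1]
    exact NGM.zero K hM
  | succ i ih =>
    intro M _ _ f π hM hπ h0 hi
    have := hM.finite
    obtain ⟨t, ht⟩ := gen_fg (f := f) 1
    have hfW : ∀ m x, f m x ∈ gen f 1 := fun m x =>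
      comp_mem_gen (j := 0) (Submodule.mem_top (R := MonoidAlgebra A D)) x
    have hW : ∀ w ∈ gen f 1, kerMap D B i (π w) = 0 := by
      have h1 : gen f 1 ≤ LinearMap.ker (kerMap D B i ∘ₗ π) := by
        refine nxt_le fun m _ x => ?_
        rw [LinearMap.mem_ker, LinearMap.comp_apply, kerMap_eq_zero, ← hπ m x, matM_apply]
        exact cmp_step D g hur B hsupp i (π m) (hi m) (rep D x)
      exact fun w hw => h1 hw
    obtain ⟨l, V, hV1, hV2, hV3⟩ := hR.ker hM (kerMap D B i ∘ₗ π) t fun x hx =>
      hW x (by rw [← ht]; exact Submodule.subset_span hx)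
    have hWV : ∀ w ∈ gen f 1, ((w, 0) : M × (Fin l → MonoidAlgebra A D)) ∈ V := by
      have h1 : gen f 1 ≤
          V.comap (LinearMap.inl (MonoidAlgebra A D) M (Fin l → MonoidAlgebra A D)) := by
        rw [← ht, Submodule.span_le]
        exact fun y hy => hV2 y hy
      exact fun w hw => h1 hw
    have hfV : ∀ y x, prodZ f (Fin l → MonoidAlgebra A D) y x ∈ V := by
      intro y x
      rw [prodZ_apply]
      exact hWV _ (hfW y.1 x)
    have h1 : NGM K (prodZ f (Fin l → MonoidAlgebra A D)) := by
      refine NGM.of_sub K _ V (fun y _ x => hfV y x) ?_ ?_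
      · refine ih _ (π ∘ₗ LinearMap.fst (MonoidAlgebra A D) M _ ∘ₗ V.subtype) hV3 ?_ ?_ ?_
        · exact (hπ.comp (prodZ_fst f _)).comp (subM_isHom _ V _)
        · intro m hm
          have h2 : f (m : M × (Fin l → MonoidAlgebra A D)).1 = 0 := h0 _ hm
          apply Ind.ext
          intro x
          apply Subtype.ext
          rw [Ind.zero_apply]
          refine (subM_isHom _ V (fun y _ x => hfV y x) m x).symm.trans ?_
          change prodZ f (Fin l → MonoidAlgebra A D) (m : M × (Fin l → MonoidAlgebra A D)) x = 0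
          rw [prodZ_apply, h2]
          rfl
        · intro m
          have h2 := hV1 m.1 m.2
          exact kerMap_eq_zero.1 h2
      · rw [quotM_eq_zero _ V (fun y _ x => hfV y x) hfV]
        exact NGM.zero K (Perf.quot V hV3 (hM.prod (Perf.free _)))
    refine NGM.left K (i := LinearMap.inl (MonoidAlgebra A D) M _)
      (q := LinearMap.snd (MonoidAlgebra A D) M _) LinearMap.inl_injective
      LinearMap.snd_surjective (fun y => ⟨fun h => ⟨y.1, Prod.ext rfl h.symm⟩, ?_⟩)
      (prodZ_inl f _) (prodZ_snd f _) h1 (NGM.zero K (Perf.free _))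
    rintro ⟨x, rfl⟩
    rfl

/-- The nil groups vanish over rings with stably locally perfect kernels. -/
theorem nilOKA_of_lps (K : K1C (MonoidAlgebra A G)) (hR : LPS (MonoidAlgebra A D)) :
    NilOKA K D := by
  intro g hur ι _ _ B k hB hsupp
  have h1 : NGM K (matM (D := D) B) := by
    refine ngm_of_lps K hR g hur B hsupp k (matM B) LinearMap.id (Perf.free ι)
      (fun m x => rfl) (fun m hm => ?_) fun m => ?_
    · rw [LinearMap.id_apply] at hm
      rw [hm, map_zero]
    · rw [mem_matK, hB, Matrix.vecMul_zero]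
  have h2 : NG K (ι → MonoidAlgebra A G) (Matrix.toLinearMapRight' B) := by
    refine NG.congr K (toSE A D ι) (fun φ => ?_) h1
    rw [toSE_apply, toSE_apply]
    have h3 : (toS A D ι) ∘ₗ nu (matM (D := D) B) =
        (Matrix.toLinearMapRight' B) ∘ₗ (toS A D ι) := by
      apply Ind.hom_ext
      intro v
      rw [LinearMap.comp_apply, nu_iota, toS_matM, LinearMap.comp_apply, toS_iota]
      rfl
    exact LinearMap.congr_fun h3 φ
  have h3 := NG.g K h2
  rw [map_add, Matrix.toLinearMapRight'_one]
  exact h3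

end

/-- The rings `ℤ[D × ℤ^m]` have stably locally perfect kernels. -/
def StLPS (D : Type) [Group D] : Prop := ∀ m : ℕ, LPS (MonoidAlgebra ℤ (D × ZN m))

/-- Subgroups such that the kernels over all `ℤ[D × ℤ^m]` are stably locally perfect are good. -/
theorem nGood_of_lps {G : Type} [Group G] (D : Subgroup G) (h : StLPS D) : NGood G D := by
  refine nGood_of_nilOKA D fun m K => ?_
  exact nilOKA_of_lps K ((h m).congr (MonoidAlgebra.curryRingEquiv))

end Pool.Agent.Lib.MP_551055_al.T6
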